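import Mathlib

set_option autoImplicit false

namespace Pool.Agent.Results.MP_4fa8e2_co.Cube

open Finset Module Pointwise

lemma gen {κ σ : Type} (P : κ → MvPolynomial σ ℝ) (T : Finset κ)
    (h : ∀ t ∈ T, ∃ x, MvPolynomial.eval x (P t) ≠ 0) :
    ∃ x, ∀ t ∈ T, MvPolynomial.eval x (P t) ≠ 0 := by
  by_contra! hc
  have : ∏ t ∈ T, P t = 0 := MvPolynomial.funext fun x => by
    obtain ⟨t, ht, h0⟩ := hc x
    rw [map_prod, map_zero]
    exact prod_eq_zero ht h0
  obtain ⟨t, ht, h0⟩ := prod_eq_zero_iff.1 this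
  obtain ⟨x, hx⟩ := h t ht
  simp [h0] at hx

def pt {d : ℕ} (b : Fin d → Fin 2) : Fin d → ℝ := fun i => (b i : ℕ)

lemma pt_inj {d : ℕ} : Function.Injective (pt (d := d)) := fun a b h => funext fun i =>
  Fin.ext (by have := congrFun h i; simpa [pt] using this)

lemma cube {d : ℕ} (k : ℕ) : ∀ s : Finset (Fin d → Fin 2),
    finrank ℝ (vectorSpan ℝ (pt '' (s : Set (Fin d → Fin 2)))) ≤ k → s.card ≤ 2 ^ k := by
  have mem : ∀ (s : Finset (Fin d → Fin 2)), ∀ a ∈ s, ∀ b ∈ s,
      pt a - pt b ∈ vectorSpan ℝ (pt '' (s : Set (Fin d → Fin 2))) := fun s a ha b hb =>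
    vsub_mem_vectorSpan ℝ (Set.mem_image_of_mem _ ha) (Set.mem_image_of_mem _ hb)
  induction k with
  | zero =>
    intro s hs
    refine card_le_one.2 fun a ha b hb => pt_inj (sub_eq_zero.1 ?_)
    have := mem s a ha b hb
    rwa [Submodule.finrank_eq_zero.1 (Nat.le_zero.1 hs), Submodule.mem_bot] at this
  | succ k ih =>
    intro s hs
    by_cases h : s.card ≤ 1
    · exact h.trans Nat.one_le_two_pow
    obtain ⟨a, ha, b, hb, hab⟩ := one_lt_card.1 (not_le.1 h)
    obtain ⟨i, hi⟩ := Function.ne_iff.1 hab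
    have key : ∀ c : Fin 2, (s.filter fun x => x i = c).card ≤ 2 ^ k := fun c => by
      refine ih _ (Nat.le_of_lt_succ (lt_of_lt_of_le (Submodule.finrank_lt_finrank_of_lt
        (lt_of_le_of_ne (vectorSpan_mono ℝ (Set.image_mono (coe_subset.2 (filter_subset _ _))))
          fun e => ?_)) hs))
      have h1 := mem s a ha b hb
      rw [← e] at h1
      have h2 : vectorSpan ℝ (pt '' ((s.filter fun x => x i = c : Finset (Fin d → Fin 2)) : Set (Fin d → Fin 2))) ≤
          LinearMap.ker (LinearMap.proj (R := ℝ) (φ := fun _ : Fin d => ℝ) i) := by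
        rw [vectorSpan_def, Submodule.span_le]
        rintro _ ⟨_, ⟨x, hx, rfl⟩, _, ⟨y, hy, rfl⟩, rfl⟩
        simp [pt, (mem_filter.1 hx).2, (mem_filter.1 hy).2]
      have h3 := h2 h1
      simp only [LinearMap.mem_ker, LinearMap.proj_apply, Pi.sub_apply, pt, sub_eq_zero,
        Nat.cast_inj] at h3
      exact hi (Fin.ext h3)
    rw [card_eq_sum_card_fiberwise (f := fun x => x i) (t := univ) fun _ _ => mem_coe.2 (mem_univ _),
      Fin.sum_univ_two, pow_succ]
    linarith [key 0, key 1]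

lemma proj (d : ℕ) : ∃ L : (Fin d → ℝ) →ₗ[ℝ] (Fin 3 → ℝ), Function.Injective (L ∘ pt) ∧
    ∀ s : Finset (Fin d → Fin 2), s.card = 5 → ¬Coplanar ℝ (L '' (pt '' (s : Set (Fin d → Fin 2)))) := by
  classical
  have ex : ∀ s : Finset (Fin d → Fin 2), ∃ u : Fin 3 → Fin d → ℝ, s.card = 5 →
      LinearIndependent ℝ u ∧ ∀ j, u j ∈ vectorSpan ℝ (pt '' (s : Set (Fin d → Fin 2))) := fun s => by
    by_cases h : s.card = 5
    · obtain ⟨f, hf⟩ := exists_linearIndependent_of_le_finrank (R := ℝ) (n := 3)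
        (M := vectorSpan ℝ (pt '' (s : Set (Fin d → Fin 2)))) (not_le.1 fun h2 => by
          have := cube 2 s h2; omega)
      exact ⟨fun j => f j, fun _ => ⟨hf.map' (Submodule.subtype _) (Submodule.ker_subtype _),
        fun j => (f j).2⟩⟩
    · exact ⟨0, fun h2 => absurd h2 h⟩
  choose u hu using ex
  let P : Finset (Fin d → Fin 2) ⊕ (Fin d → Fin 2) × (Fin d → Fin 2) →
      MvPolynomial (Fin 3 × Fin d) ℝ := Sum.elim
    (fun s => (Matrix.of fun j i => ∑ k, MvPolynomial.X (i, k) * MvPolynomial.C (u s j k)).det)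
    fun p => ∑ k, MvPolynomial.X (0, k) * MvPolynomial.C ((pt p.1 - pt p.2) k)
  have e1 : ∀ x s, MvPolynomial.eval x (P (.inl s)) =
      (Matrix.of fun j => (Matrix.of fun i k => x (i, k)).mulVec (u s j)).det := fun x s => by
    simp only [P, Sum.elim_inl, RingHom.map_det]
    congr 1
    ext j i
    simp [Matrix.mulVec, dotProduct]
  have e2 : ∀ x p, MvPolynomial.eval x (P (.inr p)) =
      (Matrix.of fun i k => x (i, k)).mulVec (pt p.1 - pt p.2) 0 := fun x p => by
    simp [P, Matrix.mulVec, dotProduct]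
  obtain ⟨x, hx⟩ := gen P ((univ.filter fun s => s.card = 5).disjSum
    (univ.filter fun p => p.1 ≠ p.2)) (by
    rintro (s | p) h
    · obtain ⟨g, hg⟩ := (Fintype.linearCombination ℝ (u s)).exists_leftInverse_of_injective
        (LinearMap.ker_eq_bot.2 (linearIndependent_iff_injective_fintypeLinearCombination.1
          (hu s (by simpa using h)).1))
      refine ⟨fun p => LinearMap.toMatrix' g p.1 p.2, ?_⟩
      have : (Matrix.of fun j => (Matrix.of fun i k => LinearMap.toMatrix' g i k).mulVec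
          (u s j)) = 1 := by
        ext j i
        have h1 := LinearMap.congr_fun hg (Pi.single j 1)
        simp only [LinearMap.comp_apply, Fintype.linearCombination_apply_single, one_smul,
          LinearMap.id_apply] at h1
        have h2 : (Matrix.of fun i k => LinearMap.toMatrix' g i k) = LinearMap.toMatrix' g := rfl
        rw [Matrix.of_apply, h2, LinearMap.toMatrix'_mulVec, h1, Matrix.one_apply, Pi.single_apply]
        simp [eq_comm]
      rw [e1, this]
      simp
    · obtain ⟨k, hk⟩ := Function.ne_iff.1 (pt_inj.ne (by simpa using h : p.1 ≠ p.2))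
      refine ⟨fun q => if q.2 = k then 1 else 0, ?_⟩
      rw [e2]
      simpa [Matrix.mulVec, dotProduct, sub_eq_zero] using hk)
  refine ⟨Matrix.toLin' (Matrix.of fun i k => x (i, k)), fun a b h => by_contra fun hab => ?_,
    fun s hs hc => ?_⟩
  · refine hx (.inr (a, b)) (by simpa using hab) ?_
    simp only [Function.comp_apply, Matrix.toLin'_apply] at h
    rw [e2, Matrix.mulVec_sub, h, sub_self, Pi.zero_apply]
  · have h1 := hx (.inl s) (by simpa using hs)
    rw [e1] at h1
    have h2 := Matrix.linearIndependent_rows_of_det_ne_zero h1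
    rw [coplanar_iff_finrank_le_two] at hc
    have h3 : ∀ j, (Matrix.of fun i k => x (i, k)).mulVec (u s j) ∈ vectorSpan ℝ
        (Matrix.toLin' (Matrix.of fun i k => x (i, k)) '' (pt '' (s : Set (Fin d → Fin 2)))) := fun j => by
      have := AffineMap.map_vectorSpan
        (Matrix.toLin' (Matrix.of fun i k => x (i, k))).toAffineMap (s := pt '' (s : Set (Fin d → Fin 2)))
      simp only [LinearMap.coe_toAffineMap, LinearMap.toAffineMap_linear] at this
      rw [← this]
      exact ⟨_, (hu s hs).2 j, Matrix.toLin'_apply _ _⟩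
    have h4 := (LinearIndependent.of_comp (Submodule.subtype _)
      (v := fun j => ⟨_, h3 j⟩) h2).fintype_card_le_finrank
    simp at h4
    omega

theorem result (n : ℕ) (hn : 1 ≤ n) : ∃ A : Finset (Fin 3 → ℝ), A.card = n ∧
    (∀ s ⊆ A, s.card = 5 → ¬Coplanar ℝ (s : Set (Fin 3 → ℝ))) ∧
    ((A + A).card : ℝ) ≤ 3 * (n : ℝ) ^ Real.logb 2 3 := by
  classical
  obtain ⟨L, h1, h2⟩ := proj (Nat.log 2 n + 1)
  obtain ⟨B, -, hB⟩ := exists_subset_card_eq (s := (univ : Finset (Fin (Nat.log 2 n + 1) → Fin 2)))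
    (n := n) (by simpa using (Nat.lt_pow_succ_log_self one_lt_two n).le)
  refine ⟨B.image (L ∘ pt), by rw [card_image_of_injective _ h1, hB], fun s hs h5 => ?_, ?_⟩
  · obtain ⟨t, -, rfl⟩ := subset_image_iff.1 hs
    rw [card_image_of_injective _ h1] at h5
    rw [coe_image, Set.image_comp]
    exact h2 t h5
  · have : B.image (L ∘ pt) + B.image (L ∘ pt) ⊆
        univ.image fun z : Fin (Nat.log 2 n + 1) → Fin 3 => L fun i => (z i : ℕ) := by
      intro x hx
      obtain ⟨_, ha, _, hb, rfl⟩ := mem_add.1 hx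
      obtain ⟨a, -, rfl⟩ := mem_image.1 ha
      obtain ⟨b, -, rfl⟩ := mem_image.1 hb
      refine mem_image.2 ⟨fun i => ⟨a i + b i, by omega⟩, mem_univ _, ?_⟩
      simp only [Function.comp_apply, ← map_add]
      congr 1
      ext i
      simp [pt]
    have h3 : (B.image (L ∘ pt) + B.image (L ∘ pt)).card ≤ 3 ^ (Nat.log 2 n + 1) :=
      (card_le_card this).trans (card_image_le.trans (by simp))
    refine (Nat.cast_le.2 h3).trans ?_
    have h4 : (2 : ℝ) ^ (Nat.log 2 n : ℝ) ≤ n := by
      rw [Real.rpow_natCast]; exact_mod_cast Nat.pow_log_le_self 2 (by omega)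
    have h5 := Real.rpow_le_rpow (by positivity) h4
      (Real.logb_nonneg (b := 2) (x := 3) one_lt_two (by norm_num))
    rw [← Real.rpow_mul zero_le_two, mul_comm, Real.rpow_mul zero_le_two,
      Real.rpow_logb two_pos (by norm_num) (by norm_num), Real.rpow_natCast] at h5
    push_cast
    rw [pow_succ]
    linarith

end Pool.Agent.Results.MP_4fa8e2_co.Cube
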